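import Mathlib
import Pool.Agent.H22.InclDefs
import Pool.Agent.H22.Incl

set_option autoImplicit false

open Pool.Agent.H22.Incl in
/-- There is a nonelementary inclusive variety of idempotent semigroups. -/
theorem Pool.Agent.Results.MP_a762d4_al.Nonelementary.result :
    ∃ K : Set Semigrp.{0}, IsInclusiveVariety K ∧ (∀ S ∈ K, ∀ x : S, x * x = x) ∧
      ¬ IsElementary K :=
  nonelem
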